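import Pool.Agent.Q211.TM.Tree
import Pool.Agent.Q211.TM.Resample

/-!
# No finitary factor of i.i.d. perfect matching of the 3-regular tree has finite expected coding
volume
-/

set_option autoImplicit false

open MeasureTheory ProbabilityTheory Filter Topology Set
open scoped ENNReal

namespace Pool.Agent.Results.MP_b3cd0c_pr.NoFiniteCodingVolume

open Pool.Agent.Q211.FI Pool.Agent.Q211.TM

/-- The ball of radius `n` around the root of the 3-regular tree. -/
def ball (n : ℕ) : Set V := {v | T3.dist root v ≤ n}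

/-- The restriction of `Φ` to the edges at the root at `ω` is determined by the labels in the ball
of radius `n`. -/
def Determined (Φ : (V → unitInterval) → V → V → Bool) (ω : V → unitInterval) (n : ℕ) : Prop :=
  ∀ ω' : V → unitInterval, (∀ v ∈ ball n, ω' v = ω v) →
    ∀ u, T3.Adj root u → Φ ω' root u = Φ ω root u

theorem ball_finite (n : ℕ) : (ball n).Finite := by
  have h : (ball n) ⊆ (fun v : V => v.1) ⁻¹' {l : List (Fin 3) | l.length ≤ n} := by
    intro v hv
    have : T3.dist root v ≤ n := hv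
    rw [dist_root] at this
    exact this
  exact ((List.finite_length_le (Fin 3) n).preimage (Subtype.val_injective.injOn)).subset h

instance : Countable V := Subtype.countable

/-- The measure on pairs of a labelling and a fresh label. -/
noncomputable def P2 : Measure ((V → unitInterval) × unitInterval) :=
  (iid V).prod volume

instance : IsProbabilityMeasure P2 := by
  unfold P2
  infer_instance

theorem ae_fst {p : (V → unitInterval) → Prop} (h : ∀ᵐ ω ∂(iid V), p ω) : ∀ᵐ q ∂P2, p q.1 := by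
  unfold P2
  exact Measure.quasiMeasurePreserving_fst.ae h

theorem ae_upd' (w : V) {p : (V → unitInterval) → Prop} (h : ∀ᵐ ω ∂(iid V), p ω) :
    ∀ᵐ q ∂P2, p (upd w q) := ae_upd (volume : Measure unitInterval) w h

theorem act_upd (γ : T3 ≃g T3) (w : V) (q : (V → unitInterval) × unitInterval) :
    actLabel γ (upd w q) = upd (γ w) (actLabel γ q.1, q.2) := by
  funext v
  unfold actLabel upd
  by_cases h : v = γ w
  · subst h
    simp
  · have h2 : γ.symm v ≠ w := by
      intro h3
      apply h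
      rw [← h3]
      simp
    rw [Function.update_of_ne h, Function.update_of_ne h2]

theorem mp_act (γ : T3 ≃g T3) : MeasurePreserving
    (fun q : (V → unitInterval) × unitInterval => (actLabel γ q.1, q.2)) P2 P2 := by
  unfold P2
  have h1 : MeasurePreserving (actLabel γ) (iid V) (iid V) :=
    ⟨measurable_actLabel γ, map_actLabel γ⟩
  exact h1.prod (MeasurePreserving.id _)

theorem act_symm_act (γ : T3 ≃g T3) (ω : V → unitInterval) :
    actLabel γ (actLabel γ.symm ω) = ω := by
  funext v
  unfold actLabel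
  simp

section

variable {Φ : (V → unitInterval) → V → V → Bool} (hΦ : IsFactor T3 Φ)
  (hpm : ∀ᵐ ω ∂(iid V), IsPerfectMatching T3 (Φ ω)) {ρ : (V → unitInterval) → ℕ}
  (hρm : Measurable ρ) (hρ : ∀ᵐ ω ∂(iid V), Determined Φ ω (ρ ω))
  (hfin : ∫⁻ ω, ((ball (ρ ω)).ncard : ℝ≥0∞) ∂(iid V) ≠ ∞)

include hΦ hpm hρ in
/-- If the edges at `v` change when the label of the root is resampled then the root is within the
coding radius of `v`. -/
theorem change_le (v : V) (γ : T3 ≃g T3) (hγ : γ root = v) (hlen : len (γ.symm root) = len v) :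
    ∀ᵐ q ∂P2, (∃ u, Φ q.1 v u ≠ Φ (upd root q) v u) → len v ≤ ρ (actLabel γ.symm q.1) := by
  have h1 := ae_fst (ae_actLabel γ.symm hρ)
  filter_upwards [h1, ae_fst hpm, ae_upd' root hpm] with q hq1 hq2 hq3
  intro hex
  by_contra hlt
  rw [not_le] at hlt
  obtain ⟨u, hu⟩ := hex
  apply hu
  set ω1 := actLabel γ.symm q.1 with hω1
  set ω2 := actLabel γ.symm (upd root q) with hω2
  have e1 : Φ q.1 = actDec γ (Φ ω1) := by
    rw [← hΦ.equi, act_symm_act]
  have e2 : Φ (upd root q) = actDec γ (Φ ω2) := by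
    rw [← hΦ.equi, act_symm_act]
  have hagree : ∀ x ∈ ball (ρ ω1), ω2 x = ω1 x := by
    intro x hx
    have hx' : T3.dist root x ≤ ρ ω1 := hx
    rw [dist_root] at hx'
    rw [hω2, act_upd, upd]
    simp only
    rw [Function.update_of_ne]
    rintro rfl
    rw [hlen] at hx'
    omega
  have h2 := hq1 ω2 hagree
  have hvs : γ.symm v = root := by rw [← hγ]; simp
  have e3 : Φ q.1 v u = Φ ω1 root (γ.symm u) := by
    rw [e1]
    show Φ ω1 (γ.symm v) (γ.symm u) = _
    rw [hvs]
  have e4 : Φ (upd root q) v u = Φ ω2 root (γ.symm u) := by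
    rw [e2]
    show Φ ω2 (γ.symm v) (γ.symm u) = _
    rw [hvs]
  by_cases hadj : T3.Adj root (γ.symm u)
  · rw [e3, e4, h2 _ hadj]
  · have hadj' : ¬ T3.Adj v u := by
      intro h3
      apply hadj
      rw [← hvs]
      exact γ.symm.map_rel_iff.2 h3
    have f1 : Φ q.1 v u = false := by
      by_contra h3
      exact hadj' (hq2.2.1 v u (by simpa using h3))
    have f2 : Φ (upd root q) v u = false := by
      by_contra h3
      exact hadj' (hq3.2.1 v u (by simpa using h3))
    rw [f1, f2]

include hρm hfin in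
theorem sum_finite : ∑' v : V, (iid V) {ω | len v ≤ ρ ω} ≠ ∞ := by
  have h1 : ∀ v : V, MeasurableSet {ω | len v ≤ ρ ω} := fun v =>
    hρm (measurableSet_Ici (a := len v))
  have h2 : ∑' v : V, (iid V) {ω | len v ≤ ρ ω} =
      ∫⁻ ω, ∑' v : V, {ω | len v ≤ ρ ω}.indicator (fun _ => (1 : ℝ≥0∞)) ω ∂(iid V) := by
    rw [lintegral_tsum fun v => (measurable_const.indicator (h1 v)).aemeasurable]
    refine tsum_congr fun v => ?_
    rw [lintegral_indicator_const (h1 v), one_mul]
  rw [h2]
  refine ne_of_eq_of_ne ?_ hfin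
  refine lintegral_congr fun ω => ?_
  have h3 : ∀ v : V, {ω | len v ≤ ρ ω}.indicator (fun _ => (1 : ℝ≥0∞)) ω =
      (ball (ρ ω)).indicator (fun _ => (1 : ℝ≥0∞)) v := by
    intro v
    have : ω ∈ {ω | len v ≤ ρ ω} ↔ v ∈ ball (ρ ω) := by
      show len v ≤ ρ ω ↔ T3.dist root v ≤ ρ ω
      rw [dist_root]
    by_cases h : v ∈ ball (ρ ω)
    · rw [Set.indicator_of_mem h, Set.indicator_of_mem (this.2 h)]
    · rw [Set.indicator_of_notMem h, Set.indicator_of_notMem (fun h' => h (this.1 h'))]
  simp_rw [h3]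
  rw [← tsum_subtype, ENNReal.tsum_set_one, ← (ball_finite (ρ ω)).cast_ncard_eq]
  simp

include hΦ hpm hρm hρ hfin in
theorem root_resample : ∀ᵐ q ∂P2, Φ (upd root q) = Φ q.1 := by
  have hch : ∀ v : V, ∃ γ : T3 ≃g T3, γ root = v ∧ len (γ.symm root) = len v := transitive
  choose γ hγ hlen using hch
  set B : V → Set ((V → unitInterval) × unitInterval) := fun v =>
    {q | len v ≤ ρ (actLabel (γ v).symm q.1)} with hB
  have hBm : ∀ v, P2 (B v) = (iid V) {ω | len v ≤ ρ ω} := by
    intro v
    have hs : MeasurableSet {ω | len v ≤ ρ ω} := hρm (measurableSet_Ici (a := len v))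
    have h1 : B v = (fun q : (V → unitInterval) × unitInterval =>
        (actLabel (γ v).symm q.1, q.2)) ⁻¹' ({ω | len v ≤ ρ ω} ×ˢ univ) := by
      ext q
      simp [hB]
    rw [h1, (mp_act (γ v).symm).measure_preimage (hs.prod MeasurableSet.univ).nullMeasurableSet]
    unfold P2
    rw [Measure.prod_prod, measure_univ, mul_one]
  have hsum : ∑' v, P2 (B v) ≠ ∞ := by
    simp_rw [hBm]
    exact sum_finite hρm hfin
  have h1 := ae_finite_setOfPred_mem hsum
  have h2 : ∀ᵐ q ∂P2, ∀ v, (∃ u, Φ q.1 v u ≠ Φ (upd root q) v u) →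
      len v ≤ ρ (actLabel (γ v).symm q.1) := by
    rw [ae_all_iff]
    exact fun v => change_le hΦ hpm hρ v (γ v) (hγ v) (hlen v)
  filter_upwards [h1, h2, ae_fst hpm, ae_upd' root hpm] with q hq1 hq2 hq3 hq4
  symm
  refine matching_diff hq3 hq4 (hq1.subset fun v hv => ?_)
  exact hq2 v hv

include hΦ hpm hρm hρ hfin in
theorem all_resample (w : V) : ∀ᵐ q ∂P2, Φ (upd w q) = Φ q.1 := by
  obtain ⟨γ, hγ, _⟩ := transitive w
  have h1 := root_resample hΦ hpm hρm hρ hfin
  have h2 := (mp_act γ.symm).quasiMeasurePreserving.ae h1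
  filter_upwards [h2] with q hq
  have e1 : upd root (actLabel γ.symm q.1, q.2) = actLabel γ.symm (upd w q) := by
    rw [act_upd]
    congr 1
    rw [← hγ]
    simp
  rw [e1] at hq
  have h3 := congrArg (actDec γ) hq
  rwa [← hΦ.equi, ← hΦ.equi, act_symm_act, act_symm_act] at h3

include hΦ hpm hρm hρ hfin in
theorem contradiction : False := by
  set A : Fin 3 → Set (V → unitInterval) := fun i => {ω | Φ ω root (r i root) = true} with hA
  have hAm : ∀ i, MeasurableSet (A i) := by
    intro i
    exact ((measurable_pi_apply (r i root)).comp ((measurable_pi_apply root).comp hΦ.meas))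
      (MeasurableSet.singleton true)
  have h01 : ∀ i, iid V (A i) = 0 ∨ iid V (A i)ᶜ = 0 := by
    intro i
    refine zero_one_resample (volume : Measure unitInterval) (A i) (hAm i) fun w => ?_
    have h1 := all_resample hΦ hpm hρm hρ hfin w
    filter_upwards [h1] with q hq
    show Φ q.1 root (r i root) = true ↔ Φ (upd w q) root (r i root) = true
    rw [hq]
  have hsym : ∀ i j, iid V (A i) = iid V (A j) := by
    intro i j
    set σ := Equiv.swap i j with hσ
    have h1 : A j = actLabel (pmG σ) ⁻¹' A i := by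
      ext ω
      show Φ ω root (r j root) = true ↔ Φ (actLabel (pmG σ) ω) root (r i root) = true
      rw [hΦ.equi]
      show Φ ω root (r j root) = true ↔
        Φ ω ((pmG σ).symm root) ((pmG σ).symm (r i root)) = true
      rw [pmG_symm_root, pmG_symm_nb, hσ, Equiv.swap_inv, Equiv.swap_apply_left]
    rw [h1]
    conv_lhs => rw [← map_actLabel (pmG σ)]
    rw [Measure.map_apply (measurable_actLabel _) (hAm i)]
  rcases h01 0 with h | h
  · have h2 : ∀ i, iid V (A i) = 0 := fun i => (hsym i 0).trans h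
    have h3 : ∀ᵐ ω ∂(iid V), ∀ i, ω ∉ A i := by
      rw [ae_all_iff]
      exact fun i => measure_eq_zero_iff_ae_notMem.1 (h2 i)
    obtain ⟨ω, hω1, hω2⟩ := (h3.and hpm).exists
    obtain ⟨u, hu, _⟩ := hω2.2.2 root
    obtain ⟨i, rfl⟩ := hω2.2.1 root u hu
    exact hω1 i hu
  · have h2 : ∀ i, iid V (A i)ᶜ = 0 := by
      intro i
      rw [prob_compl_eq_zero_iff (hAm i)]
      rw [hsym i 0]
      rwa [prob_compl_eq_zero_iff (hAm 0)] at h
    have h3 : ∀ᵐ ω ∂(iid V), ∀ i, ω ∉ (A i)ᶜ := by
      rw [ae_all_iff]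
      exact fun i => measure_eq_zero_iff_ae_notMem.1 (h2 i)
    obtain ⟨ω, hω1, hω2⟩ := (h3.and hpm).exists
    obtain ⟨u, _, hu2⟩ := hω2.2.2 root
    have e0 : Φ ω root (r 0 root) = true := by
      by_contra hc
      exact hω1 0 hc
    have e1 : Φ ω root (r 1 root) = true := by
      by_contra hc
      exact hω1 1 hc
    have := r_inj root ((hu2 _ e0).trans (hu2 _ e1).symm)
    exact absurd this (by decide)

end

/-- `T3` is the 3-regular tree (a tree all of whose vertices have degree 3), and there is no factor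
of i.i.d. `Φ` on it whose output is almost surely a perfect matching and which has a (measurable)
almost surely finite coding radius `ρ` with `E |B(o, ρ)| < ∞`. -/
theorem result : T3.IsTree ∧ (∀ v, (T3.neighborSet v).ncard = 3) ∧
    ¬ ∃ (Φ : (V → unitInterval) → V → V → Bool) (ρ : (V → unitInterval) → ℕ),
      IsFactor T3 Φ ∧ (∀ᵐ ω ∂(iid V), IsPerfectMatching T3 (Φ ω)) ∧
      Measurable ρ ∧ (∀ᵐ ω ∂(iid V), Determined Φ ω (ρ ω)) ∧
      ∫⁻ ω, ((ball (ρ ω)).ncard : ℝ≥0∞) ∂(iid V) ≠ ∞ := by
  refine ⟨isTree, regular, ?_⟩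
  rintro ⟨Φ, ρ, hΦ, hpm, hρm, hρ, hfin⟩
  exact contradiction hΦ hpm hρm hρ hfin

end Pool.Agent.Results.MP_b3cd0c_pr.NoFiniteCodingVolume
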